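import Pool.Agent.Helper53.AE.GoalsB

/-!
# Project AE (MP_8130e1_an), packet AE-KAP
-/

set_option autoImplicit false

open scoped ComplexOrder Topology
open Filter TopologicalSpace

namespace Pool.Agent.Helper54.AE.KAP

open Pool.Agent.Helper53.AE

section pos

variable {N : Type} [NonUnitalCStarAlgebra N] {V : Set N} {n : ℕ}

theorem pos_zero : PosK V (fun _ _ : Fin n => (0 : N)) :=
  ⟨0, fun i => i.elim0, fun i => i.elim0, fun s t => by simp⟩

theorem pos_add {K L : Fin n → Fin n → N} (hK : PosK V K) (hL : PosK V L) :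
    PosK V (fun s t => K s t + L s t) := by
  obtain ⟨a, W, hW, hW2⟩ := hK
  obtain ⟨b, U, hU, hU2⟩ := hL
  refine ⟨a + b, Fin.append W U, ?_, ?_⟩
  · intro j s
    refine Fin.addCases (fun i => ?_) (fun i => ?_) j
    · rw [Fin.append_left]
      exact hW i s
    · rw [Fin.append_right]
      exact hU i s
  · intro s t
    show K s t + L s t = _
    rw [Fin.sum_univ_add, hW2, hU2]
    congr 1
    · refine Finset.sum_congr rfl fun i _ => ?_
      rw [Fin.append_left]
    · refine Finset.sum_congr rfl fun i _ => ?_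
      rw [Fin.append_right]

theorem pos_sum {ι : Type} (S : Finset ι) (K : ι → Fin n → Fin n → N)
    (h : ∀ i ∈ S, PosK V (K i)) : PosK V (fun s t => ∑ i ∈ S, K i s t) := by
  classical
  induction S using Finset.induction_on with
  | empty => simpa using (pos_zero (V := V) (n := n))
  | insert a S ha ih =>
    have h1 := pos_add (h a (Finset.mem_insert_self a S))
      (ih fun i hi => h i (Finset.mem_insert_of_mem hi))
    simpa only [Finset.sum_insert ha] using h1

theorem pos_mono {V' : Set N} {K : Fin n → Fin n → N} (hV : V ⊆ V') (h : PosK V K) : PosK V' K := by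
  obtain ⟨a, W, hW, hW2⟩ := h
  exact ⟨a, W, fun j s => hV (hW j s), hW2⟩

end pos

section mu

variable {M : Type} [CStarAlgebra M] {n : ℕ} {r : Fin n → Fin n} {f : Fin n → Fin n → M}

theorem f_mem (p q : Fin n) : f p q ∈ spn f := Submodule.subset_span ⟨(p, q), rfl⟩

theorem spn_star (hf : MUs r f) {a : M} (ha : a ∈ spn f) : star a ∈ spn f := by
  refine Submodule.span_induction (p := fun a _ => star a ∈ spn f) ?_ ?_ ?_ ?_ ha
  · rintro _ ⟨p, rfl⟩
    show star (f p.1 p.2) ∈ spn f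
    rw [hf.star]
    exact f_mem _ _
  · rw [star_zero]
    exact Submodule.zero_mem _
  · intro x y _ _ hx hy
    rw [star_add]
    exact Submodule.add_mem _ hx hy
  · intro c x _ hx
    rw [star_smul]
    exact Submodule.smul_mem _ _ hx

theorem f_mul (hf : MUs r f) (x y z w : Fin n) : f x y * f z w ∈ spn f := by
  by_cases h : y = z
  · subst h
    by_cases h1 : r x = r y
    · by_cases h2 : r y = r w
      · rw [hf.mul x y w h1 h2]
        exact f_mem _ _
      · rw [hf.zero y w h2, mul_zero]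
        exact Submodule.zero_mem _
    · rw [hf.zero x y h1, zero_mul]
      exact Submodule.zero_mem _
  · rw [hf.orth x y z w h]
    exact Submodule.zero_mem _

theorem spn_mul (hf : MUs r f) {a b : M} (ha : a ∈ spn f) (hb : b ∈ spn f) : a * b ∈ spn f := by
  refine Submodule.span_induction (p := fun a _ => a * b ∈ spn f) ?_ ?_ ?_ ?_ ha
  · rintro _ ⟨p, rfl⟩
    show f p.1 p.2 * b ∈ spn f
    refine Submodule.span_induction (p := fun b _ => f p.1 p.2 * b ∈ spn f) ?_ ?_ ?_ ?_ hb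
    · rintro _ ⟨q, rfl⟩
      exact f_mul hf _ _ _ _
    · rw [mul_zero]
      exact Submodule.zero_mem _
    · intro x y _ _ hx hy
      rw [mul_add]
      exact Submodule.add_mem _ hx hy
    · intro c x _ hx
      rw [mul_smul_comm]
      exact Submodule.smul_mem _ _ hx
  · rw [zero_mul]
    exact Submodule.zero_mem _
  · intro x y _ _ hx hy
    rw [add_mul]
    exact Submodule.add_mem _ hx hy
  · intro c x _ hx
    rw [smul_mul_assoc]
    exact Submodule.smul_mem _ _ hx

theorem P_mem : ∑ p, f p p ∈ spn f := Submodule.sum_mem _ fun p _ => f_mem p p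

theorem P_star (hf : MUs r f) : star (∑ p, f p p) = ∑ p, f p p := by
  rw [star_sum]
  exact Finset.sum_congr rfl fun p _ => hf.star p p

theorem P_sq (hf : MUs r f) : (∑ p, f p p) * (∑ p, f p p) = ∑ p, f p p := by
  rw [Finset.sum_mul]
  refine Finset.sum_congr rfl fun p _ => ?_
  rw [Finset.mul_sum, Finset.sum_eq_single p]
  · exact hf.mul p p p rfl rfl
  · intro q _ hq
    exact hf.orth p p q q (Ne.symm hq)
  · intro h
    exact absurd (Finset.mem_univ p) h

theorem P_norm (hf : MUs r f) : ‖∑ p, f p p‖ ≤ 1 := by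
  have h1 : ‖∑ p, f p p‖ * ‖∑ p, f p p‖ = ‖∑ p, f p p‖ := by
    conv_rhs => rw [← P_sq hf]
    conv_rhs => rw [← P_star hf, star_sum]
    rw [← CStarRing.norm_star_mul_self (x := ∑ p, f p p), star_sum]
    congr 1
    rw [← star_sum, P_star hf]
  by_contra h
  rw [not_le] at h
  nlinarith

end mu

theorem t (hPIN : S_PIN) (hARV : S_ARV) (hBND : S_BND) (hCEX : S_CEX) : S_KAP := by
  intro A B C M _ _ _ _ θ ι hι E s h1 hE hs1 hcp n r f hf
  obtain ⟨Ψ, hΨ1, hΨ2, hΨ3⟩ := hCEX M n r f hf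
  generalize hP : ∑ p, f p p = P at hΨ2
  have hPm : P ∈ spn f := by rw [← hP]; exact P_mem
  have hPs : star P = P := by rw [← hP]; exact P_star hf
  have hPP : P * P = P := by rw [← hP]; exact P_sq hf
  have hPn : ‖P‖ ≤ 1 := by rw [← hP]; exact P_norm hf
  -- the compression
  let Ψ' : M →ₗ[ℂ] M := Ψ ∘ₗ (LinearMap.mulLeft ℂ P ∘ₗ LinearMap.mulRight ℂ P)
  have hΨ'0 : ∀ m, Ψ' m = Ψ (P * (m * P)) := fun m => rfl
  have hΨ'p : ∀ (k : ℕ) (Y : Fin k → M),
      PosK (spn f : Set M) fun s t => Ψ' (star (Y s) * Y t) := by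
    intro k Y
    have h2 := hΨ3 k fun s => Y s * P
    have h3 : (fun s t => Ψ (star (Y s * P) * (Y t * P))) = fun s t => Ψ' (star (Y s) * Y t) := by
      funext s t
      rw [hΨ'0, star_mul, hPs]
      congr 1
      simp only [mul_assoc]
    rw [h3] at h2
    exact h2
  have hΨ'm : ∀ m, Ψ' m ∈ spn f := by
    intro m
    obtain ⟨a, W, hW, hW2⟩ := hΨ'p 2 ![star m, 1]
    have h2 : Ψ' (star ((![star m, 1] : Fin 2 → M) 0) * (![star m, 1] : Fin 2 → M) 1) =
      ∑ j, star (W j 0) * W j 1 := hW2 0 1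
    have h3 : star ((![star m, 1] : Fin 2 → M) 0) * (![star m, 1] : Fin 2 → M) 1 = m := by
      simp
    rw [h3] at h2
    rw [h2]
    exact Submodule.sum_mem _ fun j _ => spn_mul hf (spn_star hf (hW j 0)) (hW j 1)
  -- the subspace
  let ιl : B →ₗ[ℂ] C := ι.toAlgHom.toLinearMap
  have hιl : ∀ b, ιl b = ι b := fun b => rfl
  have hιi : Function.Injective ιl := hι
  let V : Submodule ℂ C := E.map ιl
  let e : E ≃ₗ[ℂ] V := Submodule.equivMapOfInjective ιl hιi E
  have he : ∀ x : E, ((e x : V) : C) = ι (x : B) := fun x => rfl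
  have he2 : ∀ v : V, ι ((e.symm v : E) : B) = (v : C) := by
    intro v
    rw [← he, LinearEquiv.apply_symm_apply]
  let μ : V →ₗ[ℂ] M := Ψ' ∘ₗ θ.toAlgHom.toLinearMap ∘ₗ s ∘ₗ e.symm.toLinearMap
  have hμ : ∀ v : V, μ v = Ψ' (θ (s (e.symm v))) := fun v => rfl
  have hμe : ∀ x : E, μ (e x) = Ψ' (θ (s x)) := by
    intro x
    rw [hμ, LinearEquiv.symm_apply_apply]
  have hV1 : (1 : C) ∈ V := ⟨1, h1, by rw [hιl, map_one]⟩
  have hVs : ∀ x ∈ V, star x ∈ V := by
    rintro _ ⟨b, hb, rfl⟩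
    exact ⟨star b, hE b hb, by rw [hιl, hιl, map_star]⟩
  have hμp : ∀ K : Fin n → Fin n → V, PosK Set.univ (fun i j => (K i j : C)) →
      PosK Set.univ fun i j => μ (K i j) := by
    intro K hK
    have h2 : PosK Set.univ fun i j => ι (((e.symm (K i j) : E) : B)) := by
      simp only [he2]
      exact hK
    have h3 := hPIN B C ι hι n (fun i j => ((e.symm (K i j) : E) : B)) h2
    obtain ⟨a, W, -, hW2⟩ := hcp n (fun i j => e.symm (K i j)) h3
    have h4 : (fun i j => μ (K i j)) = fun i j => ∑ l ∈ (Finset.univ : Finset (Fin a)),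
        Ψ' (star (θ (W l i)) * θ (W l j)) := by
      funext i j
      have h5 : s (e.symm (K i j)) = ∑ l, star (W l i) * W l j := hW2 i j
      rw [hμ, h5, map_sum, map_sum]
      refine Finset.sum_congr rfl fun l _ => ?_
      rw [map_mul, map_star]
    rw [h4]
    exact pos_sum Finset.univ (fun l i j => Ψ' (star (θ (W l i)) * θ (W l j))) fun l _ =>
      pos_mono (Set.subset_univ _) (hΨ'p n fun i => θ (W l i))
  obtain ⟨κ, hκ1, hκ2⟩ := hARV C M V μ n r f hf hV1 hVs (fun x => hΨ'm _) hμp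
  have hκE : ∀ x : E, κ (ι (x : B)) = Ψ' (θ (s x)) := by
    intro x
    have h2 := hκ1 (e x)
    rw [he, hμe] at h2
    exact h2
  refine ⟨κ, ?_, hκ2, ?_⟩
  · have h2 := hκE ⟨1, h1⟩
    rw [hs1, map_one θ, hΨ'0, one_mul, hPP, hΨ1 P hPm] at h2
    have h3 : ι ((⟨1, h1⟩ : E) : B) = 1 := map_one ι
    rw [h3] at h2
    exact h2
  · intro x y hy
    rw [hκE x, hΨ'0, ← mul_assoc]
    generalize P * θ (s x) * P = m
    have h2 : ‖Ψ (m - y)‖ ≤ 2 * ‖m - y‖ :=
      hBND M M Ψ (fun k Y => pos_mono (Set.subset_univ _) (hΨ3 k Y)) (by rw [hΨ2]; exact hPn) _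
    have h3 : Ψ m - m = Ψ (m - y) - (m - y) := by
      rw [map_sub, hΨ1 y hy]
      abel
    rw [h3]
    calc ‖Ψ (m - y) - (m - y)‖ ≤ ‖Ψ (m - y)‖ + ‖m - y‖ := norm_sub_le _ _
      _ ≤ 3 * ‖m - y‖ := by linarith

end Pool.Agent.Helper54.AE.KAP
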